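import Pool.Agent.V7H41.CC.Spec2

/-!
FACT: the sum of `a! (N - a)!` over `2 ≤ a ≤ N - 2` is at most `7 (N - 2)!`.
-/

open Finset

namespace Pool.Agent.V7H80.CC

open Pool.Agent.V7H41.CC

theorem fac_mul (i j : ℕ) : (4 + i).factorial * (4 + j).factorial ≤ 24 * (4 + (i + j)).factorial := by
  induction i with
  | zero =>
    have : (4 : ℕ).factorial = 24 := rfl
    simp [this]
  | succ i ih =>
    have h1 : (4 + (i + 1)).factorial = (4 + i + 1) * (4 + i).factorial := Nat.factorial_succ _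
    have h2 : (4 + (i + 1 + j)).factorial = (4 + (i + j) + 1) * (4 + (i + j)).factorial := by
      rw [show 4 + (i + 1 + j) = 4 + (i + j) + 1 by ring]
      exact Nat.factorial_succ _
    rw [h1, h2]
    calc (4 + i + 1) * (4 + i).factorial * (4 + j).factorial
        = (4 + i + 1) * ((4 + i).factorial * (4 + j).factorial) := by ring
      _ ≤ (4 + (i + j) + 1) * (24 * (4 + (i + j)).factorial) :=
          Nat.mul_le_mul (by omega) ih
      _ = _ := by ring

theorem big (M : ℕ) : ∑ a ∈ Icc 2 (M + 6), a.factorial * (M + 8 - a).factorial ≤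
    7 * (M + 6).factorial := by
  have h0 : Icc 2 (M + 6) = Ico 2 (M + 7) := by
    ext x
    simp only [mem_Icc, mem_Ico]
    omega
  rw [h0, sum_Ico_eq_sum_range]
  have h1 : M + 7 - 2 = M + 1 + 1 + 1 + 1 + 1 := by omega
  rw [h1, sum_range_succ, sum_range_succ, sum_range_succ', sum_range_succ']
  have h2 : ∑ k ∈ range (M + 1), (2 + (k + 1 + 1)).factorial * (M + 8 - (2 + (k + 1 + 1))).factorial ≤
      ∑ _k ∈ range (M + 1), 24 * (4 + M).factorial := by
    refine sum_le_sum fun k hk => ?_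
    rw [mem_range] at hk
    have e1 : 2 + (k + 1 + 1) = 4 + k := by ring
    have e2 : M + 8 - (4 + k) = 4 + (M - k) := by omega
    have e3 : k + (M - k) = M := by omega
    rw [e1, e2]
    have := fac_mul k (M - k)
    rwa [e3] at this
  rw [sum_const, card_range, smul_eq_mul] at h2
  have e1 : M + 8 - (2 + (0 + 1)) = M + 5 := by omega
  have e2 : M + 8 - (2 + 0) = M + 6 := by omega
  have e3 : 2 + (M + 1 + 1 + 1) = M + 5 := by omega
  have e4 : 2 + (M + 1 + 1 + 1 + 1) = M + 6 := by omega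
  have e5 : M + 8 - (M + 5) = 3 := by omega
  have e6 : M + 8 - (M + 6) = 2 := by omega
  rw [e1, e2, e3, e4, e5, e6]
  have f1 : (M + 6).factorial = (M + 6) * ((M + 5) * (M + 4).factorial) := by
    rw [Nat.factorial_succ, Nat.factorial_succ]
  have f2 : (M + 5).factorial = (M + 5) * (M + 4).factorial := Nat.factorial_succ _
  have f3 : (2 + (0 + 1)).factorial = 6 := rfl
  have f4 : (2 + 0).factorial = 2 := rfl
  have f5 : (3 : ℕ).factorial = 6 := rfl
  have f6 : (2 : ℕ).factorial = 2 := rfl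
  simp only [f3, f4, f5, f6]
  rw [f1, f2]
  rw [add_comm 4 M] at h2
  set F := (M + 4).factorial
  have hF : 0 ≤ F := Nat.zero_le _
  have key : (M + 1) * 24 + 12 * (M + 5) + 4 * ((M + 6) * (M + 5)) ≤ 7 * ((M + 6) * (M + 5)) := by
    nlinarith [mul_self_nonneg ((M : ℤ) - 1)]
  calc _ ≤ (M + 1) * (24 * F) + 6 * ((M + 5) * F) + 2 * ((M + 6) * ((M + 5) * F)) +
        (M + 5) * F * 6 + (M + 6) * ((M + 5) * F) * 2 := by
        gcongr
    _ = ((M + 1) * 24 + 12 * (M + 5) + 4 * ((M + 6) * (M + 5))) * F := by ring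
    _ ≤ (7 * ((M + 6) * (M + 5))) * F := Nat.mul_le_mul_right _ key
    _ = _ := by ring

theorem t_FACT : S_FACT := by
  intro N hN
  rcases Nat.lt_or_ge N 8 with h | h
  · interval_cases N <;> decide
  · obtain ⟨M, rfl⟩ := Nat.exists_eq_add_of_le h
    have e1 : 8 + M - 2 = M + 6 := by omega
    have e2 : 8 + M = M + 8 := by omega
    rw [e1, e2]
    exact big M

end Pool.Agent.V7H80.CC
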